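import Pool.Agent.Horrocks.Limit

/-!
# Horrocks' inequalities for limits of modules with a simple point

Let `M` be a module over `S = k[X_1, …, X_m]` of finite dimension over the field `k`, on which
every variable acts nilpotently (every graded module of finite dimension, with variables of
positive degree, is of this kind).  Suppose that `M` is a specialization: there are commuting
`n × n` matrices `A_1, …, A_m` over a domain `R` and a surjective ring map `ev : R → k` such that
in a suitable basis of `M` the variable `X_j` acts by the matrix `ev (A_j)`.  Suppose moreover
that the generic member of the family has a direct summand of length one, that is, there are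
a column `x` and a row `y` over `R` with `A_j x = lam_j x`, `y A_j = lam_j y` and `y x ≠ 0`.
Then in every resolution of `M` by free modules of finite rank (in particular in the minimal one)
the `i`-th free module has rank at least `m.choose i`.
-/

open MvPolynomial Horr

universe u v

theorem Pool.Agent.Results.MP_e2ce73_al.LimitsSimplePoint.result
    {k : Type u} [Field k] (m n : ℕ)
    {M : Type u} [AddCommGroup M] [Module k M] [Module (MvPolynomial (Fin m) k) M]
    [IsScalarTower k (MvPolynomial (Fin m) k) M]
    -- the variables act nilpotently
    (hnil : ∀ j, ∃ N : ℕ, ∀ z : M, (X j ^ N : MvPolynomial (Fin m) k) • z = 0)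
    (b : Module.Basis (Fin n) k M)
    -- a family of commuting matrices over the domain `R`
    {R : Type v} [CommRing R] [IsDomain R] (ev : R →+* k) (hev : Function.Surjective ev)
    (A : Fin m → Matrix (Fin n) (Fin n) R) (hcomm : ∀ i j, A i * A j = A j * A i)
    -- whose specialization is `M`
    (hA : ∀ j q, (X j : MvPolynomial (Fin m) k) • b q = ∑ p, ev (A j p q) • b p)
    -- and whose generic member has a direct summand of length one
    (lam : Fin m → R) (x y : Fin n → R)
    (hx : ∀ j, (A j).mulVec x = lam j • x) (hy : ∀ j, Matrix.vecMul y (A j) = lam j • y)
    (hxy : dotProduct y x ≠ 0)
    -- any free resolution of `M`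
    (F : FreeRes (MvPolynomial (Fin m) k) M) (i : ℕ) :
    m.choose i ≤ F.rk i :=
  limit_main m n hnil b ev hev A hcomm hA lam x y hx hy hxy F i
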